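import Pool.Agent.CvxP.Up
import Pool.Agent.CvxP.Lo

/-!
# MP_1780a9_co: disks with centres in convex position

`n` closed disks of radius `r` in the closed unit disk, every line meets at most `k` of them. If `h` of the centres lie on a supporting
line of the set of centres, then `r h² ≤ 256 k²`. So `r n² ≤ 256 k²` for centres in convex position, and this is sharp up to the constant:
for `2 ≤ k ≤ n` there are such disks with `r = k² / (100 n²)`.
-/

set_option autoImplicit false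

namespace Pool.Agent.Results.MP_1780a9_co.ConvexPosition

open Pool.Agent.EDW (Plane IsLine)
open Pool.Agent.CvxP

theorem inner_plane (u v : Plane) : inner ℝ u v = u 0 * v 0 + u 1 * v 1 := by
  simp [PiLp.inner_apply, Fin.sum_univ_two]
  ring

theorem support {n : ℕ} (c : Fin n → Plane) (i : Fin n) (h : c i ∉ convexHull ℝ (c '' {i}ᶜ)) :
    ∃ u : Plane, u ≠ 0 ∧ ∀ j, inner ℝ u (c j) ≤ inner ℝ u (c i) := by
  by_cases hn : ∃ j, j ≠ i
  · have hfin : (c '' {i}ᶜ).Finite := Set.toFinite _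
    obtain ⟨f, t, h1, h2⟩ := geometric_hahn_banach_closed_point (convex_convexHull ℝ (c '' {i}ᶜ))
      (Set.Finite.isClosed_convexHull ℝ hfin) h
    have hf : ∀ z : Plane, f z = inner ℝ
        (WithLp.toLp 2 ![f (EuclideanSpace.single 0 1), f (EuclideanSpace.single 1 1)] : Plane) z := by
      intro z
      have hz : z = z 0 • (EuclideanSpace.single 0 1 : Plane) + z 1 • (EuclideanSpace.single 1 1 : Plane) := by
        ext j
        fin_cases j <;> simp
      rw [inner_plane]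
      conv_lhs => rw [hz]
      rw [map_add, map_smul, map_smul]
      simp
      ring
    obtain ⟨w, hf⟩ : ∃ w : Plane, ∀ z : Plane, f z = inner ℝ w z := ⟨_, hf⟩
    refine ⟨w, ?_, fun j => ?_⟩
    · intro h0
      obtain ⟨j, hj⟩ := hn
      have h3 := h1 (c j) (subset_convexHull ℝ _ ⟨j, hj, rfl⟩)
      rw [hf, h0, inner_zero_left] at h3 h2
      linarith
    · rw [← hf, ← hf]
      by_cases hj : j = i
      · rw [hj]
      · have h3 := h1 (c j) (subset_convexHull ℝ _ ⟨j, hj, rfl⟩)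
        linarith
  · push Not at hn
    refine ⟨EuclideanSpace.single 0 1, ?_, fun j => by rw [hn j]⟩
    intro h0
    have := congrArg (fun z : Plane => z 0) h0
    simp at this

theorem convex_pt {n : ℕ} (i : Fin n) : pt n i ∉ convexHull ℝ (pt n '' {i}ᶜ) := by
  intro h
  have hn : 0 < n := lt_of_le_of_lt (Nat.zero_le _) i.isLt
  have hn0 : (0 : ℝ) < n := by exact_mod_cast hn
  set x := pt n i 0 with hx
  have hlin : IsLinearMap ℝ (fun z : Plane => 2 * x * z 0 - z 1) :=
    ⟨fun a b => by simp; ring, fun a b => by simp; ring⟩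
  have hconv : Convex ℝ {z : Plane | 2 * x * z 0 - z 1 < x ^ 2} := convex_halfSpace_lt hlin _
  have hsub : pt n '' {i}ᶜ ⊆ {z : Plane | 2 * x * z 0 - z 1 < x ^ 2} := by
    rintro _ ⟨j, hj, rfl⟩
    have h1 : pt n j 1 = (pt n j 0) ^ 2 := by rw [pt_one, pt_zero]
    show 2 * x * pt n j 0 - pt n j 1 < x ^ 2
    rw [h1]
    have h2 : pt n j 0 ≠ x := by
      intro h3
      rw [hx, pt_zero, pt_zero, div_left_inj' (by positivity)] at h3
      exact hj (Fin.ext (Nat.cast_injective h3))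
    have h3 : 0 < (pt n j 0 - x) ^ 2 := by
      have : pt n j 0 - x ≠ 0 := sub_ne_zero.2 h2
      positivity
    nlinarith
  have h1 := convexHull_min hsub hconv h
  have h2 : 2 * x * pt n i 0 - pt n i 1 < x ^ 2 := h1
  have h3 : pt n i 1 = x ^ 2 := by rw [hx, pt_one, pt_zero]
  rw [h3, ← hx] at h2
  nlinarith

theorem result :
    (∀ (n k : ℕ) (r : ℝ) (c : Fin n → Plane), 1 ≤ k → 0 < r →
      (∀ i, Metric.closedBall (c i) r ⊆ Metric.closedBall 0 1) →
      (∀ l, IsLine l → {i | (Metric.closedBall (c i) r ∩ l).Nonempty}.ncard ≤ k) →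
      r * ({i | ∃ u : Plane, u ≠ 0 ∧ ∀ j, inner ℝ u (c j) ≤ inner ℝ u (c i)}.ncard : ℝ) ^ 2 ≤
          256 * (k : ℝ) ^ 2 ∧
        ((∀ i, c i ∉ convexHull ℝ (c '' {i}ᶜ)) → r * (n : ℝ) ^ 2 ≤ 256 * (k : ℝ) ^ 2)) ∧
    (∀ n k : ℕ, 2 ≤ k → k ≤ n → ∃ c : Fin n → Plane,
      (∀ i, c i ∉ convexHull ℝ (c '' {i}ᶜ)) ∧
      (∀ i, Metric.closedBall (c i) ((k : ℝ) ^ 2 / (100 * (n : ℝ) ^ 2)) ⊆ Metric.closedBall 0 1) ∧
      ∀ l, IsLine l →
        {i | (Metric.closedBall (c i) ((k : ℝ) ^ 2 / (100 * (n : ℝ) ^ 2)) ∩ l).Nonempty}.ncard ≤ k) := by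
  refine ⟨fun n k r c hk hr hc hl => ?_, fun n k hk hkn => ⟨pt n, convex_pt, fun i => ?_, few hk hkn⟩⟩
  · have h1 := upper n k r c hk hr hc hl
    simp only [← inner_plane] at h1
    refine ⟨h1, fun hconv => ?_⟩
    have h2 : {i | ∃ u : Plane, u ≠ 0 ∧ ∀ j, inner ℝ u (c j) ≤ inner ℝ u (c i)} = Set.univ :=
      Set.eq_univ_of_forall fun i => support c i (hconv i)
    rw [h2, Set.ncard_univ, Nat.card_eq_fintype_card, Fintype.card_fin] at h1
    exact h1
  · have hn0 : (0 : ℝ) < n := by exact_mod_cast (by omega : 0 < n)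
    have h1 : (k : ℝ) ^ 2 / (100 * (n : ℝ) ^ 2) ≤ 1 / 100 := by
      have h2 : (k : ℝ) ≤ n := by exact_mod_cast hkn
      rw [div_le_div_iff₀ (by positivity) (by norm_num)]
      have h3 : (k : ℝ) ^ 2 ≤ (n : ℝ) ^ 2 := by gcongr
      linarith
    refine Metric.closedBall_subset_closedBall' ?_
    rw [dist_zero_right]
    have := norm_pt n i
    linarith

end Pool.Agent.Results.MP_1780a9_co.ConvexPosition
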