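import Pool.Agent.EDA.Explicit

/-!
# MP_1780a9_co: the exponent 3/2

`r_k(n) >= n^(-3/2) exp (-38 sqrt (log n * log log n))` for every `k ≥ 2` and `n ≥ 16`, in
particular for `r(n) = r_2(n)`; the exponent `3/2 + o(1)` replaces `2`.
-/

set_option autoImplicit false

namespace Pool.Agent.Results.MP_1780a9_co.ThreeHalves

open Pool.Agent.EDW

theorem result (n k : ℕ) (hn : 16 ≤ n) (hk : 2 ≤ k) :
    BddAbove {r | Admissible k n r} ∧
    (n : ℝ) ^ (-(3 / 2 : ℝ)) *
      Real.exp (-(38 * Real.sqrt (Real.log n * Real.log (Real.log n)))) ≤ rk k n :=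
  ⟨bddAbove_admissible (by omega), Pool.Agent.EDA.rk_explicit hn hk⟩

end Pool.Agent.Results.MP_1780a9_co.ThreeHalves
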