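import Pool.Agent.EDU.Upper

/-!
# MP_1780a9_co: an improved upper bound

`r_k(n) <= (k-1)(2k-1)/(2k n) * (1 + 30 n^(-1/3))` for all `n >= 1`, `k >= 2`; the listed bound is
`k/n`. For `k = 2` the constant is `3/4` instead of `2`.
-/

set_option autoImplicit false

namespace Pool.Agent.Results.MP_1780a9_co.UpperConstant

open Pool.Agent.EDW (Plane IsLine)

/-- If `n` closed disks of radius `r` (repetitions allowed) lie in the closed unit disk and every
line meets at most `k ≥ 2` of them, then `r ≤ (k-1)(2k-1)/(2k n) * (1 + 30 n^(-1/3))`. -/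
theorem result (n k : ℕ) (hn : 1 ≤ n) (hk : 2 ≤ k) (r : ℝ) (hr : 0 < r) (c : Fin n → Plane)
    (hc : ∀ i, Metric.closedBall (c i) r ⊆ Metric.closedBall 0 1)
    (hl : ∀ l, IsLine l → {i | (Metric.closedBall (c i) r ∩ l).Nonempty}.ncard ≤ k) :
    r ≤ ((k : ℝ) - 1) * (2 * k - 1) / (2 * k * n) * (1 + 30 * (n : ℝ) ^ (-(1 / 3) : ℝ)) := by
  have hn0 : (0 : ℝ) < n := by exact_mod_cast hn
  have hk0 : (0 : ℝ) < k := by
    have : (2 : ℝ) ≤ k := by exact_mod_cast hk
    linarith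
  have h1 := Pool.Agent.EDU.upper hn hk hr hc hl
  have e : ((k : ℝ) - 1) * (2 * k - 1) / (2 * k * n) * (1 + 30 * (n : ℝ) ^ (-(1 / 3) : ℝ)) =
      (((k : ℝ) - 1) * (2 * k - 1) / (2 * k) * (1 + 30 * (n : ℝ) ^ (-(1 / 3) : ℝ))) / n := by
    field_simp
  rw [e, le_div_iff₀ hn0, mul_comm r]
  exact h1

end Pool.Agent.Results.MP_1780a9_co.UpperConstant
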